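import Pool.Agent.Helper99.PG.Goals

/-!
EVAL: the port determinant at the corners as a sum over choice functions.
-/

namespace Pool.Agent.Helper24.PG

open Pool.Agent.Helper99.PG
open scoped Classical

set_option linter.unusedSimpArgs false

section rowops

variable {V R : Type} [Fintype V] [DecidableEq V] [CommRing R]

/-- adding multiples of the rows `(v, false)` to the rows `(v, true)` -/
theorem det_rowop (M N : Matrix (Port V) (Port V) R) (c : V → R)
    (h1 : ∀ v j, N (v, true) j = M (v, true) j + c v * M (v, false) j)
    (h2 : ∀ v j, N (v, false) j = M (v, false) j) : N.det = M.det := by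
  let e : V ⊕ V ≃ Port V :=
    { toFun := fun s => s.elim (fun v => (v, true)) (fun v => (v, false))
      invFun := fun p => if p.2 then Sum.inl p.1 else Sum.inr p.1
      left_inv := by
        rintro (v | v) <;> simp
      right_inv := by
        rintro ⟨v, b⟩
        cases b <;> simp }
  have key : N.submatrix e e = Matrix.fromBlocks (1 : Matrix V V R) (Matrix.diagonal c) 0 1
      * M.submatrix e e := by
    have hM : M.submatrix e e = Matrix.fromBlocks (Matrix.of fun v w => M (v, true) (w, true))
        (Matrix.of fun v w => M (v, true) (w, false)) (Matrix.of fun v w => M (v, false) (w, true))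
        (Matrix.of fun v w => M (v, false) (w, false)) := by
      ext1 i j
      rcases i with i | i <;> rcases j with j | j <;> rfl
    have hN : N.submatrix e e = Matrix.fromBlocks (Matrix.of fun v w => N (v, true) (w, true))
        (Matrix.of fun v w => N (v, true) (w, false)) (Matrix.of fun v w => N (v, false) (w, true))
        (Matrix.of fun v w => N (v, false) (w, false)) := by
      ext1 i j
      rcases i with i | i <;> rcases j with j | j <;> rfl
    rw [hM, hN, Matrix.fromBlocks_multiply]
    have a1 : (Matrix.of fun v w => N (v, true) (w, true)) =
        (1 : Matrix V V R) * (Matrix.of fun v w => M (v, true) (w, true)) +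
          Matrix.diagonal c * (Matrix.of fun v w => M (v, false) (w, true)) := by
      ext1 v w
      rw [one_mul, Matrix.add_apply, Matrix.diagonal_mul]
      exact h1 v (w, true)
    have a2 : (Matrix.of fun v w => N (v, true) (w, false)) =
        (1 : Matrix V V R) * (Matrix.of fun v w => M (v, true) (w, false)) +
          Matrix.diagonal c * (Matrix.of fun v w => M (v, false) (w, false)) := by
      ext1 v w
      rw [one_mul, Matrix.add_apply, Matrix.diagonal_mul]
      exact h1 v (w, false)
    have a3 : (Matrix.of fun v w => N (v, false) (w, true)) =
        (0 : Matrix V V R) * (Matrix.of fun v w => M (v, true) (w, true)) +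
          1 * (Matrix.of fun v w => M (v, false) (w, true)) := by
      ext1 v w
      rw [zero_mul, one_mul, zero_add]
      exact h2 v (w, true)
    have a4 : (Matrix.of fun v w => N (v, false) (w, false)) =
        (0 : Matrix V V R) * (Matrix.of fun v w => M (v, true) (w, false)) +
          1 * (Matrix.of fun v w => M (v, false) (w, false)) := by
      ext1 v w
      rw [zero_mul, one_mul, zero_add]
      exact h2 v (w, false)
    rw [← a1, ← a2, ← a3, ← a4]
  have h3 := congrArg Matrix.det key
  rw [Matrix.det_mul, Matrix.det_fromBlocks_zero₂₁, Matrix.det_one, one_mul,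
    one_mul, Matrix.det_submatrix_equiv_self, Matrix.det_submatrix_equiv_self] at h3
  exact h3

end rowops

section acc

variable {V : Type} (up dn : V → Option V) (W : Finset V)

/-- targets -/
noncomputable def tau (i : Port V) (c : Bool) : Option (Port V) :=
  if i.1 ∈ W then (if i.2 then some (i.1, false) else nxt up dn i.1 c)
  else nxt up dn i.1 i.2

/-- the choice function on ports -/
def lift (A : V → Bool) (p : Port V) : Bool := if p.2 then true else A p.1

theorem tau_lift_eq (A : V → Bool) (p : Port V) (h : ¬ (p.1 ∈ W ∧ p.2 = true)) :
    tau up dn W p (lift A p) = suc up dn W A p := by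
  obtain ⟨v, d⟩ := p
  unfold tau suc lift
  by_cases hv : v ∈ W
  · have hd : d = false := by
      cases d
      · rfl
      · exact absurd ⟨hv, rfl⟩ h
    subst hd
    simp [hv]
  · simp [hv]

theorem tau_lift_true (A : V → Bool) {v : V} (hv : v ∈ W) :
    tau up dn W (v, true) (lift A (v, true)) = some (v, false) := by
  unfold tau
  simp [hv]

theorem suc_true_eq (A : V → Bool) {v : V} (hv : v ∈ W) :
    suc up dn W A (v, true) = suc up dn W A (v, false) := by
  unfold suc
  simp [hv]

theorem acc_of_reach (A : V → Bool) (p : Port V)
    (h : Acc (fun q p => suc up dn W A p = some q) p) :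
    Acc (fun j i => tau up dn W i (lift A i) = some j) p := by
  induction h with
  | intro p _ ih =>
    by_cases hp : p.1 ∈ W ∧ p.2 = true
    · obtain ⟨v, d⟩ := p
      obtain ⟨hv, hd⟩ := hp
      simp only at hv hd
      subst hd
      refine Acc.intro _ fun j hj => ?_
      rw [tau_lift_true up dn W A hv] at hj
      obtain rfl := Option.some.inj hj
      refine Acc.intro _ fun j hj => ?_
      rw [tau_lift_eq up dn W A (v, false) (fun h => by simp at h), ← suc_true_eq up dn W A hv] at hj
      exact ih j hj
    · refine Acc.intro _ fun j hj => ?_
      rw [tau_lift_eq up dn W A p hp] at hj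
      exact ih j hj

theorem reach_of_acc (A : V → Bool) (p : Port V)
    (h : Acc (fun j i => tau up dn W i (lift A i) = some j) p) :
    Acc (fun q p => suc up dn W A p = some q) p := by
  induction h with
  | intro p _ ih =>
    by_cases hp : p.1 ∈ W ∧ p.2 = true
    · obtain ⟨v, d⟩ := p
      obtain ⟨hv, hd⟩ := hp
      simp only at hv hd
      subst hd
      have h1 := ih (v, false) (tau_lift_true up dn W A hv)
      refine Acc.intro _ fun q hq => ?_
      rw [suc_true_eq up dn W A hv] at hq
      exact h1.inv hq
    · refine Acc.intro _ fun q hq => ?_
      rw [← tau_lift_eq up dn W A p hp] at hq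
      exact ih q hq

theorem acc_iff (A : V → Bool) :
    (∀ i, Acc (fun j i => tau up dn W i (lift A i) = some j) i) ↔ Reach up dn W A :=
  ⟨fun h p => reach_of_acc up dn W A p (h p), fun h p => acc_of_reach up dn W A p (h p)⟩

end acc

/-- weights -/
noncomputable def wt {V R : Type} [CommRing R] (W : Finset V) (x : R) (i : Port V) (c : Bool) : R :=
  if i.2 = false ∧ i.1 ∈ W then (if c then 1 else x) else (if c then 1 else 0)

theorem eval : GoalEval := by
  intro hM V R _ _ _ up dn W x
  have h1 := hM (ι := Port V) (wt W x) (tau up dn W)
  have h2 : (Matrix.of fun i j => ∑ c : Bool, wt W x i c *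
      ((if j = i then 1 else 0) - (if tau up dn W i c = some j then 1 else 0))).det =
      (portMat up dn x (fun v => if v ∈ W then 1 else 0) (fun v => if v ∈ W then x else 1)).det := by
    refine det_rowop _ _ (fun v => if v ∈ W then -1 else -x) ?_ ?_
    · intro v j
      have e1 : ∀ d : Bool, (j = (v, d)) = (some (v, d) = some j) := fun d => by
        rw [Option.some.injEq]
        exact propext eq_comm
      by_cases hv : v ∈ W
      · simp only [Matrix.of_apply, Fintype.sum_bool, wt, tau, portMat, nxt, hv, e1, if_true,
          if_false, Option.map_some, Bool.false_eq_true, reduceIte, and_true, false_and, and_false,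
          reduceCtorEq, Bool.true_eq_false]
        split_ifs <;> ring
      · simp only [Matrix.of_apply, Fintype.sum_bool, wt, tau, portMat, nxt, hv, e1, if_true,
          if_false, Option.map_some, Bool.false_eq_true, reduceIte, and_true, false_and, and_false,
          reduceCtorEq, Bool.true_eq_false]
        split_ifs <;> ring
    · intro v j
      have e1 : ∀ d : Bool, (j = (v, d)) = (some (v, d) = some j) := fun d => by
        rw [Option.some.injEq]
        exact propext eq_comm
      by_cases hv : v ∈ W
      · simp only [Matrix.of_apply, Fintype.sum_bool, wt, tau, portMat, nxt, hv, e1, if_true,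
          if_false, Option.map_some, Bool.false_eq_true, reduceIte, and_true, false_and, and_false,
          reduceCtorEq, Bool.true_eq_false]
        split_ifs <;> ring
      · simp only [Matrix.of_apply, Fintype.sum_bool, wt, tau, portMat, nxt, hv, e1, if_true,
          if_false, Option.map_some, Bool.false_eq_true, reduceIte, and_true, false_and, and_false,
          reduceCtorEq, Bool.true_eq_false]
        split_ifs <;> ring
  rw [h2] at h1
  rw [h1]
  symm
  refine Finset.sum_of_injOn lift ?_ ?_ ?_ ?_
  · intro A _ A' _ h
    funext v
    have := congrFun h (v, false)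
    simpa [lift] using this
  · intro A _
    exact Finset.mem_coe.mpr (Finset.mem_univ _)
  · intro B _ hB
    split_ifs with hacc
    · -- `B` has a zero weight
      by_contra hne
      apply hB
      have hw : ∀ i, wt W x i (B i) ≠ 0 := fun i hi =>
        hne (Finset.prod_eq_zero (Finset.mem_univ i) hi)
      have hb : ∀ v, B (v, true) = true := by
        intro v
        by_contra hf
        apply hw (v, true)
        simp [wt, hf]
      have hb' : ∀ v, v ∉ W → B (v, false) = true := by
        intro v hv
        by_contra hf
        apply hw (v, false)
        simp [wt, hf, hv]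
      have hlift : lift (fun v => B (v, false)) = B := by
        funext p
        obtain ⟨v, d⟩ := p
        cases d
        · rfl
        · simp [lift, hb]
      refine ⟨fun v => B (v, false), ?_, hlift⟩
      rw [Finset.coe_filter]
      refine ⟨Finset.mem_univ _, hb', ?_⟩
      rw [← acc_iff up dn W, hlift]
      exact hacc
    · rfl
  · intro A hA
    rw [Finset.mem_filter] at hA
    obtain ⟨-, hA1, hA2⟩ := hA
    rw [if_pos ((acc_iff up dn W A).mpr hA2)]
    have hpoint : ∀ v : V, wt W x (v, true) (lift A (v, true)) * wt W x (v, false)
        (lift A (v, false)) = if v ∈ W ∧ A v = false then x else 1 := by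
      intro v
      by_cases hv : v ∈ W
      · cases hAv : A v <;> simp [wt, lift, hv, hAv]
      · simp [wt, lift, hv, hA1 v hv]
    have hprod : ∏ i : Port V, wt W x i (lift A i) = ∏ v : V,
        (if v ∈ W ∧ A v = false then x else 1) := by
      rw [Fintype.prod_prod_type]
      refine Finset.prod_congr rfl fun v _ => ?_
      rw [Fintype.prod_bool]
      exact hpoint v
    rw [hprod, Finset.prod_ite, Finset.prod_const_one, mul_one, Finset.prod_const]
    congr 2
    ext v
    simp

end Pool.Agent.Helper24.PG
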