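import Pool.Agent.Helper99.PG.Goals1

/-!
MONO: the counts grow with the size of an edge.
-/

namespace Pool.Agent.Helper24.PG

open Pool.Agent.Helper99.PG Pool.Agent.Helper68
open scoped Classical

theorem mono : GoalMono := by
  intro hS hF V E _ _ _ _ g c k e hu hv n i
  have hS2 := hS.2 (V ⊕ E) (Bool ⊕ E) (SK.col E c)
  obtain ⟨-, hadd, hsub, hdel⟩ := hS2
  obtain ⟨hfin, -, -, hdom⟩ := hF V E Bool g c
  have hsum : ∑ e', (n e' + (Pi.single e 1 : E → ℤ) e') = ∑ e', n e' + 1 := by
    simp [Finset.sum_add_distrib]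
  have key : ∀ (x : V) (w w' : Bool ⊕ E → ℤ),
      (∀ z ∈ SK.JJ g, z - SK.δ (.inr e) + SK.δ (.inl x) ∈ SK.JJ g) →
      w - SK.δ (.inr e) + SK.δ (.inl (c x)) = w' → SK.cnt g c w ≤ SK.cnt g c w' := by
    intro x w w' hJ hw
    unfold SK.cnt
    refine Nat.cast_le.mpr (Set.ncard_le_ncard_of_injOn
      (fun z => z - SK.δ (.inr e) + SK.δ (.inl x)) ?_ ?_ (hfin w'))
    · rintro z ⟨hz1, hz2⟩
      refine ⟨hJ z hz1, ?_⟩
      rw [hadd, hsub, hdel, hdel, hz2]
      exact hw
    · intro z _ z' _ h
      simpa using h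
  constructor
  · refine key (g e).2 _ _ (fun z hz => (hdom z e hz).2) ?_
    rw [hv]
    funext s
    rcases s with b | e'
    · cases b
      · simp only [Pi.add_apply, Pi.sub_apply, SK.wt, SK.δ, Pi.single_eq_same, hsum]
        rw [Pi.single_eq_of_ne (by simp)]
        ring
      · simp only [Pi.add_apply, Pi.sub_apply, SK.wt, SK.δ]
        rw [Pi.single_eq_of_ne (by simp), Pi.single_eq_of_ne (by simp)]
        ring
    · simp only [Pi.add_apply, Pi.sub_apply, SK.wt, SK.δ]
      rw [Pi.single_eq_of_ne (M := fun _ => ℤ) (i := Sum.inl false) (by simp)]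
      by_cases h : e' = e
      · subst h
        simp only [Pi.single_eq_same]
        ring
      · rw [Pi.single_eq_of_ne (by simpa using h), Pi.single_eq_of_ne h]
        ring
  · refine key (g e).1 _ _ (fun z hz => (hdom z e hz).1) ?_
    rw [hu]
    funext s
    rcases s with b | e'
    · cases b
      · simp only [Pi.add_apply, Pi.sub_apply, SK.wt, SK.δ, hsum]
        rw [Pi.single_eq_of_ne (by simp), Pi.single_eq_of_ne (by simp)]
        ring
      · simp only [Pi.add_apply, Pi.sub_apply, SK.wt, SK.δ, Pi.single_eq_same]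
        rw [Pi.single_eq_of_ne (by simp)]
        ring
    · simp only [Pi.add_apply, Pi.sub_apply, SK.wt, SK.δ]
      rw [Pi.single_eq_of_ne (M := fun _ => ℤ) (i := Sum.inl true) (by simp)]
      by_cases h : e' = e
      · subst h
        simp only [Pi.single_eq_same]
        ring
      · rw [Pi.single_eq_of_ne (by simpa using h), Pi.single_eq_of_ne h]
        ring

end Pool.Agent.Helper24.PG
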